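import Pool.Agent.Helper98.Sim.Defs

open scoped Classical BigOperators
open Finset

namespace Pool.Agent.Helper55.Sim

open Pool.Agent.Helper98.Sim

theorem supp_deg {d D : ℕ} {f : MvPolynomial (Fin d) ℝ} (hf : f.totalDegree ≤ D)
    {a : Fin d →₀ ℕ} (ha : a ∈ f.support) : ∑ k, a k ≤ D := by
  have h1 := MvPolynomial.le_totalDegree ha
  have h2 : (a.sum fun _ e => e) = ∑ k, a k := by
    rw [Finsupp.sum_fintype]
    intro i; rfl
  omega

theorem term_eq {d D : ℕ} (u : Fin d → ℝ) (u0 : ℝ) (h0 : u0 ≠ 0) (a : Fin d →₀ ℕ)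
    (ha : ∑ k, a k ≤ D) (c : ℝ) :
    c * (∏ k, u k ^ a k) * u0 ^ (D - ∑ k, a k) = u0 ^ D * (c * ∏ k, (u k / u0) ^ a k) := by
  have h1 : ∏ k, (u k / u0) ^ a k = (∏ k, u k ^ a k) / u0 ^ (∑ k, a k) := by
    rw [← Finset.prod_pow_eq_pow_sum, ← Finset.prod_div_distrib]
    refine Finset.prod_congr rfl fun k _ => ?_
    rw [div_pow]
  rw [h1]
  have h2 : u0 ^ D = u0 ^ (D - ∑ k, a k) * u0 ^ (∑ k, a k) := by
    rw [← pow_add]; congr 1; omega
  rw [h2]
  field_simp

theorem st_Subst1 : Subst1_stmt := by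
  intro d D e f u u0 hf hu hu0
  refine ⟨∑ a ∈ f.support, Polynomial.C (f.coeff a) * (∏ k, u k ^ a k) *
    u0 ^ (D - ∑ k, a k), ?_, ?_⟩
  · refine Polynomial.natDegree_sum_le_of_forall_le _ _ fun a ha => ?_
    have h1 := supp_deg hf ha
    have h2 : (∏ k, u k ^ a k).natDegree ≤ ∑ k, e * a k := by
      refine (Polynomial.natDegree_prod_le _ _).trans (Finset.sum_le_sum fun k _ => ?_)
      refine (Polynomial.natDegree_pow_le).trans ?_
      rw [mul_comm]
      exact Nat.mul_le_mul_right _ (hu k)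
    have h3 : (u0 ^ (D - ∑ k, a k)).natDegree ≤ e * (D - ∑ k, a k) := by
      refine (Polynomial.natDegree_pow_le).trans ?_
      rw [mul_comm]
      exact Nat.mul_le_mul_right _ hu0
    have h4 : (Polynomial.C (f.coeff a) * (∏ k, u k ^ a k)).natDegree ≤ ∑ k, e * a k :=
      (Polynomial.natDegree_C_mul_le _ _).trans h2
    refine (Polynomial.natDegree_mul_le).trans ((Nat.add_le_add h4 h3).trans ?_)
    rw [← Finset.mul_sum, ← mul_add]
    exact Nat.mul_le_mul_left _ (by omega)
  · intro t ht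
    rw [Polynomial.eval_finsetSum, MvPolynomial.eval_eq', Finset.mul_sum]
    refine Finset.sum_congr rfl fun a ha => ?_
    rw [Polynomial.eval_mul, Polynomial.eval_mul, Polynomial.eval_C, Polynomial.eval_pow,
      Polynomial.eval_prod]
    simp only [Polynomial.eval_pow]
    exact term_eq (fun k => (u k).eval t) (u0.eval t) ht a (supp_deg hf ha) _

theorem st_SubstM : SubstM_stmt := by
  intro d d' D e f u u0 hf hu hu0
  refine ⟨∑ a ∈ f.support, MvPolynomial.C (f.coeff a) * (∏ k, u k ^ a k) *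
    u0 ^ (D - ∑ k, a k), ?_, ?_, ?_⟩
  · refine MvPolynomial.totalDegree_finsetSum_le fun a ha => ?_
    have h1 := supp_deg hf ha
    have h2 : (∏ k, u k ^ a k).totalDegree ≤ ∑ k, e * a k := by
      refine (MvPolynomial.totalDegree_finsetProd _ _).trans (Finset.sum_le_sum fun k _ => ?_)
      refine (MvPolynomial.totalDegree_pow _ _).trans ?_
      rw [mul_comm]
      exact Nat.mul_le_mul_right _ (hu k)
    have h3 : (u0 ^ (D - ∑ k, a k)).totalDegree ≤ e * (D - ∑ k, a k) := by
      refine (MvPolynomial.totalDegree_pow _ _).trans ?_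
      rw [mul_comm]
      exact Nat.mul_le_mul_right _ hu0
    have h4 : (MvPolynomial.C (f.coeff a) * (∏ k, u k ^ a k)).totalDegree ≤ ∑ k, e * a k := by
      refine (MvPolynomial.totalDegree_mul _ _).trans ?_
      rw [MvPolynomial.totalDegree_C, zero_add]
      exact h2
    refine (MvPolynomial.totalDegree_mul _ _).trans ((Nat.add_le_add h4 h3).trans ?_)
    rw [← Finset.mul_sum, ← mul_add]
    exact Nat.mul_le_mul_left _ (by omega)
  · intro t ht
    rw [map_sum, MvPolynomial.eval_eq' (fun k => MvPolynomial.eval t (u k) /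
      MvPolynomial.eval t u0) f, Finset.mul_sum]
    refine Finset.sum_congr rfl fun a ha => ?_
    rw [map_mul, map_mul, MvPolynomial.eval_C, map_pow, map_prod]
    simp only [map_pow]
    exact term_eq (fun k => MvPolynomial.eval t (u k)) (MvPolynomial.eval t u0) ht a
      (supp_deg hf ha) _
  · intro hD t ht htu
    rw [map_sum]
    refine Finset.sum_eq_zero fun a ha => ?_
    rw [map_mul, map_mul, map_pow, map_prod, ht]
    by_cases h : D - ∑ k, a k = 0
    · have h1 : 0 < ∑ k, a k := by omega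
      obtain ⟨k, -, hk⟩ := Finset.exists_ne_zero_of_sum_ne_zero (ne_of_gt h1)
      have h2 : ∏ k, MvPolynomial.eval t (u k ^ a k) = 0 := by
        refine Finset.prod_eq_zero (Finset.mem_univ k) ?_
        rw [map_pow, htu k, zero_pow hk]
      rw [h2]; ring
    · rw [zero_pow h]; ring

theorem exists_root_between (g : Polynomial ℝ) {x y : ℝ} (hxy : x < y) (hx : g.eval x ≠ 0)
    (hy : g.eval y ≠ 0) (h : ¬ (0 < g.eval x ↔ 0 < g.eval y)) :
    ∃ r, x < r ∧ r < y ∧ g.eval r = 0 := by
  have hc : ContinuousOn (fun t => g.eval t) (Set.Icc x y) := g.continuous.continuousOn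
  rcases lt_or_gt_of_ne hx with h1 | h1
  · have h2 : 0 < g.eval y := by
      by_contra h3
      exact h ⟨fun h4 => absurd h4 (not_lt.mpr h1.le), fun h4 => absurd h4 h3⟩
    obtain ⟨r, hr, hr0⟩ := intermediate_value_Ioo hxy.le hc (show (0:ℝ) ∈ Set.Ioo _ _ from ⟨h1, h2⟩)
    exact ⟨r, hr.1, hr.2, hr0⟩
  · have h2 : g.eval y < 0 := by
      rcases lt_or_gt_of_ne hy with h3 | h3
      · exact h3
      · exact absurd ⟨fun _ => h3, fun _ => h1⟩ h
    obtain ⟨r, hr, hr0⟩ := intermediate_value_Ioo' hxy.le hc (show (0:ℝ) ∈ Set.Ioo _ _ from ⟨h2, h1⟩)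
    exact ⟨r, hr.1, hr.2, hr0⟩

theorem st_SignCount : SignCount_stmt := by
  intro J G X hG hX hinj
  have hH : ∏ j, G j ≠ 0 := Finset.prod_ne_zero_iff.mpr fun j _ => hG j
  set R : Finset ℝ := (∏ j, G j).roots.toFinset with hR
  have hRc : R.card ≤ ∑ j, (G j).natDegree := by
    calc R.card ≤ Multiset.card (∏ j, G j).roots := Multiset.toFinset_card_le _
      _ ≤ (∏ j, G j).natDegree := Polynomial.card_roots' _
      _ ≤ ∑ j, (G j).natDegree := Polynomial.natDegree_prod_le _ _
  have hmono : ∀ x ∈ X, ∀ y ∈ X, x < y →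
      (R.filter (fun r => r < x)).card < (R.filter (fun r => r < y)).card := by
    intro x hx y hy hxy
    have h1 : ¬ ∀ j, (0 < (G j).eval x ↔ 0 < (G j).eval y) := fun h =>
      absurd (hinj x hx y hy h) hxy.ne
    push Not at h1
    obtain ⟨j, hj⟩ := h1
    have hj' : ¬ (0 < (G j).eval x ↔ 0 < (G j).eval y) := by
      intro h
      rcases hj with hj | hj
      · exact absurd (h.mp hj.1) (not_lt.mpr hj.2)
      · exact absurd (h.mpr hj.2) (not_lt.mpr hj.1)
    obtain ⟨r, hr1, hr2, hr3⟩ := exists_root_between (G j) hxy (hX x hx j) (hX y hy j) hj'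
    have hrR : r ∈ R := by
      rw [hR, Multiset.mem_toFinset, Polynomial.mem_roots hH, Polynomial.IsRoot.def,
        Polynomial.eval_prod]
      exact Finset.prod_eq_zero (Finset.mem_univ j) hr3
    refine Finset.card_lt_card ?_
    rw [Finset.ssubset_iff_of_subset]
    · exact ⟨r, Finset.mem_filter.mpr ⟨hrR, hr2⟩, fun h => by
        have := (Finset.mem_filter.mp h).2
        linarith⟩
    · intro s hs
      have := Finset.mem_filter.mp hs
      exact Finset.mem_filter.mpr ⟨this.1, this.2.trans hxy⟩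
  have hcard : X.card ≤ (Finset.range (R.card + 1)).card := by
    refine Finset.card_le_card_of_injOn (fun x => (R.filter (fun r => r < x)).card) ?_ ?_
    · intro x _
      simp only [Finset.coe_range, Set.mem_Iio]
      exact Nat.lt_succ_of_le (Finset.card_le_card (Finset.filter_subset _ _))
    · intro x hx y hy hxy
      rcases lt_trichotomy x y with h | h | h
      · exact absurd hxy (ne_of_lt (hmono x hx y hy h))
      · exact h
      · exact absurd hxy (ne_of_gt (hmono y hy x hx h))
  rw [Finset.card_range] at hcard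
  omega

end Pool.Agent.Helper55.Sim
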