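import Pool.Agent.Helper98.Sim.Defs

open scoped Classical BigOperators
open Finset

namespace Pool.Agent.Helper55.Sim

open Pool.Agent.Helper98.Sim

/-- a rational curve: number of sign patterns -/
theorem curve_patterns (hSC : SignCount_stmt) {d J : ℕ} (f : Fin J → MvPolynomial (Fin d) ℝ)
    (γ : ℝ → Fin d → ℝ) (G : Fin J → Polynomial ℝ) (m : Fin J → ℕ)
    (hm : ∀ j, (G j).natDegree ≤ m j)
    (hG : ∀ j t, ∃ c : ℝ, 0 < c ∧ (G j).eval t = c * MvPolynomial.eval (γ t) (f j))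
    (Y : Finset (Fin d → ℝ)) (hY : ∀ r ∈ Y, ∃ t, γ t = r)
    (hne : ∀ r ∈ Y, ∀ j, MvPolynomial.eval r (f j) ≠ 0) :
    (Y.image (sgnp f)).card ≤ (∑ j, m j) + 1 := by
  have hpos : ∀ j t, (0 < (G j).eval t ↔ 0 < MvPolynomial.eval (γ t) (f j)) := by
    intro j t
    obtain ⟨c, hc, h⟩ := hG j t
    rw [h]
    exact ⟨fun h1 => by
      by_contra h2
      exact absurd h1 (not_lt.mpr (mul_nonpos_of_nonneg_of_nonpos hc.le (not_lt.mp h2))),
      fun h1 => mul_pos hc h1⟩
  have hzero : ∀ j t, MvPolynomial.eval (γ t) (f j) ≠ 0 → (G j).eval t ≠ 0 := by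
    intro j t h1
    obtain ⟨c, hc, h⟩ := hG j t
    rw [h]
    exact mul_ne_zero hc.ne' h1
  rcases Y.eq_empty_or_nonempty with rfl | ⟨r0, hr0⟩
  · simp
  have hG0 : ∀ j, G j ≠ 0 := by
    intro j h
    obtain ⟨t, ht⟩ := hY r0 hr0
    have h1 := hzero j t (by rw [ht]; exact hne r0 hr0 j)
    rw [h] at h1
    simp at h1
  have hch : ∀ s ∈ Y.image (sgnp f), ∃ t, γ t ∈ Y ∧ sgnp f (γ t) = s := by
    intro s hs
    obtain ⟨r, hr, hrs⟩ := Finset.mem_image.mp hs
    obtain ⟨t, ht⟩ := hY r hr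
    exact ⟨t, by rw [ht]; exact hr, by rw [ht]; exact hrs⟩
  choose! τ hτ1 hτ2 using hch
  have hinj : Set.InjOn τ (Y.image (sgnp f) : Finset (Fin J → Bool)) := by
    intro s hs s' hs' h
    rw [← hτ2 s hs, ← hτ2 s' hs', h]
  have hcard : ((Y.image (sgnp f)).image τ).card = (Y.image (sgnp f)).card :=
    Finset.card_image_of_injOn hinj
  have := hSC J G ((Y.image (sgnp f)).image τ) hG0 (by
    intro x hx j
    obtain ⟨s, hs, rfl⟩ := Finset.mem_image.mp hx
    exact hzero j _ (hne _ (hτ1 s hs) j)) (by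
    intro x hx y hy h
    obtain ⟨s, hs, rfl⟩ := Finset.mem_image.mp hx
    obtain ⟨s', hs', rfl⟩ := Finset.mem_image.mp hy
    congr 1
    rw [← hτ2 s hs, ← hτ2 s' hs']
    funext j
    unfold sgnp
    have h1 := h j
    rw [hpos, hpos] at h1
    exact decide_eq_decide.mpr h1)
  rw [hcard] at this
  refine this.trans (Nat.add_le_add_right (Finset.sum_le_sum fun j _ => hm j) 1)

/-- a rational curve: number of zeros -/
theorem curve_zeros {d J : ℕ} (f : Fin J → MvPolynomial (Fin d) ℝ)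
    (γ : ℝ → Fin d → ℝ) (G : Fin J → Polynomial ℝ) (m : Fin J → ℕ)
    (hm : ∀ j, (G j).natDegree ≤ m j)
    (hG : ∀ j t, ∃ c : ℝ, 0 < c ∧ (G j).eval t = c * MvPolynomial.eval (γ t) (f j))
    (Y : Finset (Fin d → ℝ)) (hY : ∀ r ∈ Y, ∃ t, γ t = r)
    (t0 : ℝ) (ht0 : ∀ j, MvPolynomial.eval (γ t0) (f j) ≠ 0)
    (hz : ∀ r ∈ Y, ∃ j, MvPolynomial.eval r (f j) = 0) :
    Y.card ≤ ∑ j, m j := by
  have hG0 : ∀ j, G j ≠ 0 := by
    intro j h
    obtain ⟨c, hc, h1⟩ := hG j t0
    rw [h, Polynomial.eval_zero] at h1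
    exact mul_ne_zero hc.ne' (ht0 j) h1.symm
  have hH : ∏ j, G j ≠ 0 := Finset.prod_ne_zero_iff.mpr fun j _ => hG0 j
  choose! τ hτ using hY
  have h1 : Y.card ≤ ((∏ j, G j).roots.toFinset).card := by
    refine Finset.card_le_card_of_injOn τ ?_ ?_
    · intro r hr
      rw [Finset.mem_coe, Multiset.mem_toFinset, Polynomial.mem_roots hH, Polynomial.IsRoot.def,
        Polynomial.eval_prod]
      obtain ⟨j, hj⟩ := hz r hr
      refine Finset.prod_eq_zero (Finset.mem_univ j) ?_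
      obtain ⟨c, hc, h1⟩ := hG j (τ r)
      rw [h1, hτ r hr, hj, mul_zero]
    · intro r hr r' hr' h
      rw [← hτ r hr, ← hτ r' hr', h]
  calc Y.card ≤ ((∏ j, G j).roots.toFinset).card := h1
    _ ≤ Multiset.card (∏ j, G j).roots := Multiset.toFinset_card_le _
    _ ≤ (∏ j, G j).natDegree := Polynomial.card_roots' _
    _ ≤ ∑ j, (G j).natDegree := Polynomial.natDegree_prod_le _ _
    _ ≤ ∑ j, m j := Finset.sum_le_sum fun j _ => hm j

theorem st_CrossLine (hS1 : Subst1_stmt) (hSC : SignCount_stmt) : ∀ d, CrossLine_stmt d := by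
  intro d b v J f Y hv hY
  have hex : ∀ j, ∃ G : Polynomial ℝ, G.natDegree ≤ (f j).totalDegree ∧ ∀ t : ℝ,
      G.eval t = MvPolynomial.eval (b + t • v) (f j) := by
    intro j
    obtain ⟨G, hG1, hG2⟩ := hS1 d (f j).totalDegree 1 (f j)
      (fun k => Polynomial.C (b k) + Polynomial.X * Polynomial.C (v k)) 1 le_rfl (by
        intro k
        refine (Polynomial.natDegree_add_le _ _).trans (max_le ?_ ?_)
        · simp
        · refine (Polynomial.natDegree_mul_le).trans ?_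
          have := Polynomial.natDegree_X_le (R := ℝ)
          simp) (by simp)
    refine ⟨G, by simpa using hG1, fun t => ?_⟩
    have h := hG2 t (by simp)
    rw [h]
    simp only [Polynomial.eval_one, one_pow, one_mul, Polynomial.eval_add, Polynomial.eval_C,
      Polynomial.eval_mul, Polynomial.eval_X, div_one]
    rfl
  choose G hG1 hG2 using hex
  have hG3 : ∀ j t, ∃ c : ℝ, 0 < c ∧ (G j).eval t =
      c * MvPolynomial.eval ((fun t : ℝ => b + t • v) t) (f j) :=
    fun j t => ⟨1, one_pos, by rw [hG2 j t, one_mul]⟩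
  have hY' : ∀ r ∈ Y, ∃ t, (fun t : ℝ => b + t • v) t = r := by
    intro r hr
    obtain ⟨t, ht⟩ := hY r hr
    exact ⟨t, ht.symm⟩
  refine ⟨fun hne => ?_, fun h0 hz => ?_⟩
  · exact curve_patterns hSC f _ G _ hG1 hG3 Y hY' hne
  · obtain ⟨r, ⟨t0, ht0⟩, hr⟩ := h0
    exact curve_zeros f _ G _ hG1 hG3 Y hY' t0 (by intro j; rw [← ht0]; exact hr j) hz

/-! ### circles -/

theorem nsq3 (x : Fin 3 → ℝ) : nsq x = x 0 * x 0 + x 1 * x 1 + x 2 * x 2 := by
  simp [nsq, dotProduct, Fin.sum_univ_three]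

theorem ortho (x0 x1 x2 e0 e1 e2 w0 w1 w2 W ρ : ℝ) (hW : W = w0 * w0 + w1 * w1 + w2 * w2)
    (hρ : ρ = e0 * e0 + e1 * e1 + e2 * e2)
    (h1 : x0 * w0 + x1 * w1 + x2 * w2 = 0) (h2 : e0 * w0 + e1 * w1 + e2 * w2 = 0)
    (g0 g1 g2 : ℝ) (hg0 : g0 = w1 * e2 - w2 * e1) (hg1 : g1 = w2 * e0 - w0 * e2)
    (hg2 : g2 = w0 * e1 - w1 * e0) :
    W * ρ * x0 = (x0 * g0 + x1 * g1 + x2 * g2) * g0 + W * (x0 * e0 + x1 * e1 + x2 * e2) * e0 ∧
    W * ρ * x1 = (x0 * g0 + x1 * g1 + x2 * g2) * g1 + W * (x0 * e0 + x1 * e1 + x2 * e2) * e1 ∧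
    W * ρ * x2 = (x0 * g0 + x1 * g1 + x2 * g2) * g2 + W * (x0 * e0 + x1 * e1 + x2 * e2) * e2 := by
  subst hW hρ hg0 hg1 hg2
  refine ⟨?_, ?_, ?_⟩
  · linear_combination ((e0 * w0 + e1 * w1 + e2 * w2) * x0 - (x0 * e0 + x1 * e1 + x2 * e2) * w0
      - (x0 * w0 + x1 * w1 + x2 * w2) * e0) * h2 + (e0 * e0 + e1 * e1 + e2 * e2) * w0 * h1
  · linear_combination ((e0 * w0 + e1 * w1 + e2 * w2) * x1 - (x0 * e0 + x1 * e1 + x2 * e2) * w1
      - (x0 * w0 + x1 * w1 + x2 * w2) * e1) * h2 + (e0 * e0 + e1 * e1 + e2 * e2) * w1 * h1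
  · linear_combination ((e0 * w0 + e1 * w1 + e2 * w2) * x2 - (x0 * e0 + x1 * e1 + x2 * e2) * w2
      - (x0 * w0 + x1 * w1 + x2 * w2) * e2) * h2 + (e0 * e0 + e1 * e1 + e2 * e2) * w2 * h1

/-- the vector `w × e` -/
def crs (w e : Fin 3 → ℝ) : Fin 3 → ℝ :=
  ![w 1 * e 2 - w 2 * e 1, w 2 * e 0 - w 0 * e 2, w 0 * e 1 - w 1 * e 0]

/-- parametrisation of the circle -/
theorem circle_param (w c e r : Fin 3 → ℝ) (hw : w ≠ 0) (he : nsq e ≠ 0)
    (h1 : (r - c) 0 * w 0 + (r - c) 1 * w 1 + (r - c) 2 * w 2 = 0)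
    (h2 : e 0 * w 0 + e 1 * w 1 + e 2 * w 2 = 0)
    (h3 : nsq (r - c) = nsq e) (hr : r ≠ c - e) :
    ∃ t : ℝ, ∀ k, (c k * (nsq w + t ^ 2) + e k * (nsq w - t ^ 2) + crs w e k * (2 * t)) /
      (nsq w + t ^ 2) = r k := by
  set x := r - c with hx
  have hWpos : 0 < nsq w := by
    rw [nsq3]
    by_contra h
    apply hw
    have h0 := mul_self_nonneg (w 0)
    have h1 := mul_self_nonneg (w 1)
    have h2 := mul_self_nonneg (w 2)
    funext k
    fin_cases k
    · exact mul_self_eq_zero.mp (by simp; nlinarith)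
    · exact mul_self_eq_zero.mp (by simp; nlinarith)
    · exact mul_self_eq_zero.mp (by simp; nlinarith)
  obtain ⟨k0, k1, k2⟩ := ortho (x 0) (x 1) (x 2) (e 0) (e 1) (e 2) (w 0) (w 1) (w 2) (nsq w) (nsq e)
    (nsq3 w) (nsq3 e) h1 h2 _ _ _ rfl rfl rfl
  set g : Fin 3 → ℝ := crs w e with hg
  have hg0 : g 0 = w 1 * e 2 - w 2 * e 1 := rfl
  have hg1 : g 1 = w 2 * e 0 - w 0 * e 2 := rfl
  have hg2 : g 2 = w 0 * e 1 - w 1 * e 0 := rfl
  rw [← hg0, ← hg1, ← hg2] at k0 k1 k2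
  set A := x 0 * e 0 + x 1 * e 1 + x 2 * e 2 with hA
  set B := x 0 * g 0 + x 1 * g 1 + x 2 * g 2 with hB
  set W := nsq w with hW
  set ρ := nsq e with hρ
  have hWne := hWpos.ne'
  set α := A / ρ with hα
  set β := B / (W * ρ) with hβ
  have hxk : ∀ k, x k = α * e k + β * g k := by
    intro k
    have : W * ρ * x k = B * g k + W * A * e k := by
      fin_cases k
      · exact k0
      · exact k1
      · exact k2
    rw [hα, hβ]
    field_simp
    linarith
  have hAα : A = α * ρ := by rw [hα]; field_simp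
  have hBβ : B = β * (W * ρ) := by rw [hβ]; field_simp
  have hnorm : α ^ 2 + W * β ^ 2 = 1 := by
    have h4 : nsq x = α * A + β * B := by
      rw [nsq3, hA, hB]
      linear_combination x 0 * hxk 0 + x 1 * hxk 1 + x 2 * hxk 2
    rw [h3, hAα, hBβ] at h4
    have h5 : ρ * (α ^ 2 + W * β ^ 2 - 1) = 0 := by linarith [h4]
    rcases mul_eq_zero.mp h5 with h6 | h6
    · exact absurd h6 he
    · linarith
  have hαne : 1 + α ≠ 0 := by
    intro h
    have h4 : α = -1 := by linarith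
    have h5 : β = 0 := by
      have : W * β ^ 2 = 0 := by rw [h4] at hnorm; linarith
      rcases mul_eq_zero.mp this with h6 | h6
      · exact absurd h6 hWne
      · exact pow_eq_zero_iff (two_ne_zero) |>.mp h6
    apply hr
    funext k
    have h6 := hxk k
    rw [h4, h5, hx, Pi.sub_apply] at h6
    rw [Pi.sub_apply]
    linarith
  refine ⟨W * β / (1 + α), fun k => ?_⟩
  have ht : (W * β / (1 + α)) ^ 2 = W * (1 - α) / (1 + α) := by
    rw [div_pow, div_eq_div_iff (pow_ne_zero 2 hαne) hαne]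
    linear_combination (W * (1 + α)) * hnorm
  have hs : W + W * (1 - α) / (1 + α) = 2 * W / (1 + α) := by field_simp; ring
  have hs' : W - W * (1 - α) / (1 + α) = 2 * W * α / (1 + α) := by field_simp; ring
  rw [ht, hs, hs']
  have hrk : r k = c k + (α * e k + β * g k) := by rw [← hxk k, hx, Pi.sub_apply]; ring
  rw [hrk]
  field_simp
  ring

theorem tri_facts {L M : ℝ} {p q r : Fin 3 → ℝ} (h : Tri L M p q r) :
    ((r - (p + ((1 + L - M) / 2) • (q - p))) 0 * (q - p) 0 +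
      (r - (p + ((1 + L - M) / 2) • (q - p))) 1 * (q - p) 1 +
      (r - (p + ((1 + L - M) / 2) • (q - p))) 2 * (q - p) 2 = 0) ∧
    nsq (r - (p + ((1 + L - M) / 2) • (q - p))) = (L - ((1 + L - M) / 2) ^ 2) * nsq (q - p) := by
  obtain ⟨h1, h2, h3⟩ := h
  simp only [nsq3, Pi.sub_apply, Pi.add_apply, Pi.smul_apply, smul_eq_mul] at *
  constructor
  · linear_combination (1/2) * h2 - (1/2) * h3
  · linear_combination ((1 + M - L) / 2) * h2 + ((1 + L - M) / 2) * h3

theorem st_Cross (hS1 : Subst1_stmt) (hSC : SignCount_stmt) : Cross_stmt := by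
  intro L M p q J f Y hgood hY
  -- general construction from a base point
  have key : ∀ r0, Tri L M p q r0 → ∃ (bad : Fin 3 → ℝ) (γ : ℝ → Fin 3 → ℝ)
      (G : Fin J → Polynomial ℝ), (∀ j, (G j).natDegree ≤ 2 * (f j).totalDegree) ∧
      (∀ j t, ∃ c : ℝ, 0 < c ∧ (G j).eval t = c * MvPolynomial.eval (γ t) (f j)) ∧
      (∀ r, Tri L M p q r → r ≠ bad → ∃ t, γ t = r) ∧ γ 0 = r0 := by
    intro r0 hr0
    set w := q - p with hw
    set c := p + ((1 + L - M) / 2) • (q - p) with hc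
    set e := r0 - c with he
    have hwne : w ≠ 0 := by
      rw [hw]
      intro h
      exact hr0.1 (sub_eq_zero.mp h).symm
    have hWpos : 0 < nsq w := by
      rw [nsq3]
      by_contra h
      apply hwne
      have h0 := mul_self_nonneg (w 0)
      have h1 := mul_self_nonneg (w 1)
      have h2 := mul_self_nonneg (w 2)
      funext k
      fin_cases k
      · exact mul_self_eq_zero.mp (by simp; nlinarith)
      · exact mul_self_eq_zero.mp (by simp; nlinarith)
      · exact mul_self_eq_zero.mp (by simp; nlinarith)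
    obtain ⟨t1, t2⟩ := tri_facts hr0
    rw [← hc, ← he, ← hw] at t1 t2
    have hepos : nsq e ≠ 0 := by
      rw [t2]
      refine mul_ne_zero ?_ hWpos.ne'
      unfold Good at hgood
      have : 0 < L - ((1 + L - M) / 2) ^ 2 := by nlinarith
      exact this.ne'
    have hex : ∀ j, ∃ G : Polynomial ℝ, G.natDegree ≤ 2 * (f j).totalDegree ∧ ∀ t : ℝ,
        G.eval t = (nsq w + t ^ 2) ^ (f j).totalDegree * MvPolynomial.eval (fun k =>
          (c k * (nsq w + t ^ 2) + e k * (nsq w - t ^ 2) + crs w e k * (2 * t)) /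
            (nsq w + t ^ 2)) (f j) := by
      intro j
      obtain ⟨G, hG1, hG2⟩ := hS1 3 (f j).totalDegree 2 (f j)
        (fun k => Polynomial.C (c k) * (Polynomial.C (nsq w) + Polynomial.X ^ 2) +
          Polynomial.C (e k) * (Polynomial.C (nsq w) - Polynomial.X ^ 2) +
          Polynomial.C (crs w e k) * (Polynomial.C 2 * Polynomial.X))
        (Polynomial.C (nsq w) + Polynomial.X ^ 2) le_rfl (by
          intro k
          compute_degree) (by compute_degree)
      refine ⟨G, hG1, fun t => ?_⟩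
      have hne : nsq w + t ^ 2 ≠ 0 := by positivity
      have h := hG2 t (by simpa using hne)
      rw [h]
      simp only [Polynomial.eval_add, Polynomial.eval_sub, Polynomial.eval_C, Polynomial.eval_mul,
        Polynomial.eval_pow, Polynomial.eval_X]
    choose G hG1 hG2 using hex
    refine ⟨c - e, fun t k => (c k * (nsq w + t ^ 2) + e k * (nsq w - t ^ 2) +
      crs w e k * (2 * t)) / (nsq w + t ^ 2), G, hG1, ?_, ?_, ?_⟩
    · intro j t
      exact ⟨(nsq w + t ^ 2) ^ (f j).totalDegree, by positivity, hG2 j t⟩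
    · intro r hr hne
      obtain ⟨s1, s2⟩ := tri_facts hr
      rw [← hc, ← hw] at s1 s2
      obtain ⟨t, ht⟩ := circle_param w c e r hwne hepos s1 t1 (by rw [s2, t2]) hne
      exact ⟨t, funext ht⟩
    · funext k
      have hne : nsq w ≠ 0 := hWpos.ne'
      have h4 : e k = r0 k - c k := rfl
      show (c k * (nsq w + (0 : ℝ) ^ 2) + e k * (nsq w - (0 : ℝ) ^ 2) +
        crs w e k * (2 * (0 : ℝ))) / (nsq w + (0 : ℝ) ^ 2) = r0 k
      rw [h4]
      field_simp
      ring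
  have hsum : ∑ j, 2 * (f j).totalDegree = 2 * ∑ j, (f j).totalDegree := by rw [Finset.mul_sum]
  refine ⟨fun hne => ?_, fun h0 hz => ?_⟩
  · rcases Y.eq_empty_or_nonempty with rfl | ⟨r0, hr0⟩
    · simp
    obtain ⟨bad, γ, G, hG1, hG2, hG3, -⟩ := key r0 (hY r0 hr0)
    have h1 := curve_patterns hSC f γ G _ hG1 hG2 (Y.erase bad) (by
      intro r hr
      exact hG3 r (hY r (Finset.mem_of_mem_erase hr)) (Finset.ne_of_mem_erase hr)) (by
      intro r hr
      exact hne r (Finset.mem_of_mem_erase hr))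
    have h2 : (Y.image (sgnp f)).card ≤ ((Y.erase bad).image (sgnp f)).card + 1 := by
      have h3 : Y.image (sgnp f) ⊆ insert (sgnp f bad) ((Y.erase bad).image (sgnp f)) := by
        intro s hs
        obtain ⟨r, hr, rfl⟩ := Finset.mem_image.mp hs
        by_cases h : r = bad
        · rw [h]; exact Finset.mem_insert_self _ _
        · exact Finset.mem_insert_of_mem
            (Finset.mem_image_of_mem _ (Finset.mem_erase.mpr ⟨h, hr⟩))
      exact (Finset.card_le_card h3).trans (Finset.card_insert_le _ _)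
    rw [hsum] at h1
    omega
  · obtain ⟨r0, hr0, hr0'⟩ := h0
    obtain ⟨bad, γ, G, hG1, hG2, hG3, hG4⟩ := key r0 hr0
    have h1 := curve_zeros f γ G _ hG1 hG2 (Y.erase bad) (by
      intro r hr
      exact hG3 r (hY r (Finset.mem_of_mem_erase hr)) (Finset.ne_of_mem_erase hr)) 0 (by
      intro j; rw [hG4]; exact hr0' j) (by
      intro r hr
      exact hz r (Finset.mem_of_mem_erase hr))
    have h2 : Y.card ≤ (Y.erase bad).card + 1 := by
      have := Finset.pred_card_le_card_erase (s := Y) (a := bad)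
      omega
    rw [hsum] at h1
    omega

end Pool.Agent.Helper55.Sim
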