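import Pool.Agent.Helper98.Sim.Defs

open scoped Classical BigOperators
open Finset

namespace Pool.Agent.Helper55.Sim

open Pool.Agent.Helper98.Sim

theorem dot3 (x y : Fin 3 → ℝ) : x ⬝ᵥ y = x 0 * y 0 + x 1 * y 1 + x 2 * y 2 := by
  simp [dotProduct, Fin.sum_univ_three]

theorem exists_generic3 (U : Finset (Fin 3 → ℝ)) (h : ∀ u ∈ U, u ≠ 0) :
    ∃ v : Fin 3 → ℝ, ∀ u ∈ U, u ⬝ᵥ v ≠ 0 := by
  set P : (Fin 3 → ℝ) → MvPolynomial (Fin 3) ℝ := fun u =>
    ∑ k, MvPolynomial.C (u k) * MvPolynomial.X k with hP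
  have hev : ∀ u v, MvPolynomial.eval v (P u) = u ⬝ᵥ v := by
    intro u v
    rw [hP]
    simp [dotProduct]
  have hne : ∀ u ∈ U, P u ≠ 0 := by
    intro u hu h0
    obtain ⟨k, hk⟩ := Function.ne_iff.mp (h u hu)
    have h1 := hev u (Pi.single k 1)
    rw [h0] at h1
    simp at h1
    exact hk h1.symm
  have hprod : ∏ u ∈ U, P u ≠ 0 := Finset.prod_ne_zero_iff.mpr hne
  have hex : ∃ v, MvPolynomial.eval v (∏ u ∈ U, P u) ≠ 0 := by
    by_contra hcon
    push Not at hcon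
    exact hprod (MvPolynomial.funext fun v => by rw [hcon v, map_zero])
  obtain ⟨v, hv⟩ := hex
  refine ⟨v, fun u hu => ?_⟩
  rw [map_prod] at hv
  have := Finset.prod_ne_zero_iff.mp hv u hu
  rwa [hev] at this

/-- a line trace is determined by two of its points -/
theorem line_eq {P A : Finset (Fin 3 → ℝ)} (hA : A ∈ Lines P) {a x : Fin 3 → ℝ} (ha : a ∈ A)
    (hx : x ∈ A) (hne : x ≠ a) : A = P.filter (fun y => On a (x - a) y) := by
  obtain ⟨-, -, a1, v1, hv1, hA1⟩ := Finset.mem_filter.mp hA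
  rw [hA1] at ha hx
  obtain ⟨-, t1, h1⟩ := Finset.mem_filter.mp ha
  obtain ⟨-, t2, h2⟩ := Finset.mem_filter.mp hx
  have h12 : t2 - t1 ≠ 0 := by
    intro h
    apply hne
    rw [h1, h2, sub_eq_zero.mp h]
  rw [hA1]
  refine Finset.filter_congr fun y _ => ?_
  have hxa : x - a = (t2 - t1) • v1 := by rw [h1, h2, sub_smul]; abel
  constructor
  · rintro ⟨s, hs⟩
    refine ⟨(s - t1) / (t2 - t1), ?_⟩
    rw [hxa, smul_smul, div_mul_cancel₀ _ h12, hs, h1, sub_smul]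
    abel
  · rintro ⟨s, hs⟩
    refine ⟨t1 + s * (t2 - t1), ?_⟩
    rw [hs, hxa, smul_smul, h1, add_smul]
    abel

theorem perp_two (w v y1 u1 u2 : Fin 3 → ℝ) (hw : w ≠ 0) (hy1 : w ⬝ᵥ y1 = 0)
    (hy2 : v ⬝ᵥ y1 = 1) (h1 : w ⬝ᵥ u1 = 0) (h2 : v ⬝ᵥ u1 = 0) (h3 : w ⬝ᵥ u2 = 0)
    (h4 : v ⬝ᵥ u2 = 0) (hu1 : u1 ≠ 0) : ∃ t : ℝ, u2 = t • u1 := by
  rw [dot3] at hy1 hy2 h1 h2 h3 h4
  set c0 := w 1 * v 2 - w 2 * v 1 with hc0
  set c1 := w 2 * v 0 - w 0 * v 2 with hc1
  set c2 := w 0 * v 1 - w 1 * v 0 with hc2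
  set N := c0 * c0 + c1 * c1 + c2 * c2 with hN
  have hNne : N ≠ 0 := by
    intro h
    have e0 : c0 = 0 := by nlinarith [mul_self_nonneg c0, mul_self_nonneg c1, mul_self_nonneg c2]
    have e1 : c1 = 0 := by nlinarith [mul_self_nonneg c0, mul_self_nonneg c1, mul_self_nonneg c2]
    have e2 : c2 = 0 := by nlinarith [mul_self_nonneg c0, mul_self_nonneg c1, mul_self_nonneg c2]
    apply hw
    have f0 : w 0 = 0 := by
      have : w 0 * (v 0 * y1 0 + v 1 * y1 1 + v 2 * y1 2) -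
        v 0 * (w 0 * y1 0 + w 1 * y1 1 + w 2 * y1 2) = y1 1 * c2 - y1 2 * c1 := by
        rw [hc2, hc1]; ring
      rw [hy1, hy2, e1, e2] at this
      linarith
    have f1 : w 1 = 0 := by
      have : w 1 * (v 0 * y1 0 + v 1 * y1 1 + v 2 * y1 2) -
        v 1 * (w 0 * y1 0 + w 1 * y1 1 + w 2 * y1 2) = y1 2 * c0 - y1 0 * c2 := by
        rw [hc2, hc0]; ring
      rw [hy1, hy2, e0, e2] at this
      linarith
    have f2 : w 2 = 0 := by
      have : w 2 * (v 0 * y1 0 + v 1 * y1 1 + v 2 * y1 2) -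
        v 2 * (w 0 * y1 0 + w 1 * y1 1 + w 2 * y1 2) = y1 0 * c1 - y1 1 * c0 := by
        rw [hc1, hc0]; ring
      rw [hy1, hy2, e0, e1] at this
      linarith
    funext k
    fin_cases k
    · exact f0
    · exact f1
    · exact f2
  have key : ∀ u : Fin 3 → ℝ, w 0 * u 0 + w 1 * u 1 + w 2 * u 2 = 0 →
      v 0 * u 0 + v 1 * u 1 + v 2 * u 2 = 0 →
      N * u 0 = (u 0 * c0 + u 1 * c1 + u 2 * c2) * c0 ∧
      N * u 1 = (u 0 * c0 + u 1 * c1 + u 2 * c2) * c1 ∧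
      N * u 2 = (u 0 * c0 + u 1 * c1 + u 2 * c2) * c2 := by
    intro u g1 g2
    rw [hN, hc0, hc1, hc2]
    refine ⟨?_, ?_, ?_⟩
    · linear_combination ((v 0 * v 0 + v 1 * v 1 + v 2 * v 2) * w 0 -
        (w 0 * v 0 + w 1 * v 1 + w 2 * v 2) * v 0) * g1 +
        ((w 0 * w 0 + w 1 * w 1 + w 2 * w 2) * v 0 -
        (w 0 * v 0 + w 1 * v 1 + w 2 * v 2) * w 0) * g2
    · linear_combination ((v 0 * v 0 + v 1 * v 1 + v 2 * v 2) * w 1 -
        (w 0 * v 0 + w 1 * v 1 + w 2 * v 2) * v 1) * g1 +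
        ((w 0 * w 0 + w 1 * w 1 + w 2 * w 2) * v 1 -
        (w 0 * v 0 + w 1 * v 1 + w 2 * v 2) * w 1) * g2
    · linear_combination ((v 0 * v 0 + v 1 * v 1 + v 2 * v 2) * w 2 -
        (w 0 * v 0 + w 1 * v 1 + w 2 * v 2) * v 2) * g1 +
        ((w 0 * w 0 + w 1 * w 1 + w 2 * w 2) * v 2 -
        (w 0 * v 0 + w 1 * v 1 + w 2 * v 2) * w 2) * g2
  obtain ⟨a0, a1, a2⟩ := key u1 h1 h2
  obtain ⟨b0, b1, b2⟩ := key u2 h3 h4
  set A := u1 0 * c0 + u1 1 * c1 + u1 2 * c2 with hA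
  set B := u2 0 * c0 + u2 1 * c1 + u2 2 * c2 with hB
  have hAne : A ≠ 0 := by
    intro h
    apply hu1
    rw [h] at a0 a1 a2
    funext k
    fin_cases k
    · exact (mul_eq_zero.mp (a0.trans (zero_mul _))).resolve_left hNne
    · exact (mul_eq_zero.mp (a1.trans (zero_mul _))).resolve_left hNne
    · exact (mul_eq_zero.mp (a2.trans (zero_mul _))).resolve_left hNne
  refine ⟨B / A, ?_⟩
  have fin : ∀ k, N * u2 k * A = N * (B * u1 k) := by
    intro k
    fin_cases k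
    · show N * u2 0 * A = N * (B * u1 0)
      rw [b0]; linear_combination (-B) * a0
    · show N * u2 1 * A = N * (B * u1 1)
      rw [b1]; linear_combination (-B) * a1
    · show N * u2 2 * A = N * (B * u1 2)
      rw [b2]; linear_combination (-B) * a2
  funext k
  have h5 := fin k
  rw [mul_assoc] at h5
  have h6 := mul_left_cancel₀ hNne h5
  rw [Pi.smul_apply, smul_eq_mul, div_mul_eq_mul_div, eq_div_iff hAne, h6]

theorem st_RichDir (hRL : RichLines_stmt) : RichDir_stmt := by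
  obtain ⟨C, hC, hRL⟩ := hRL
  refine ⟨C, hC, fun P a k ha hk => ?_⟩
  obtain ⟨v, hv⟩ := exists_generic3 ((P.erase a).image (fun x => x - a)) (by
    intro u hu
    obtain ⟨x, hx, rfl⟩ := Finset.mem_image.mp hu
    exact sub_ne_zero.mpr (Finset.ne_of_mem_erase hx))
  have hv' : ∀ x ∈ P.erase a, (x - a) ⬝ᵥ v ≠ 0 := fun x hx =>
    hv _ (Finset.mem_image_of_mem _ hx)
  set φ : (Fin 3 → ℝ) → (Fin 3 → ℝ) := fun x => ((x - a) ⬝ᵥ v)⁻¹ • (x - a) with hφ
  set Q := (P.erase a).image φ with hQ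
  have hφv : ∀ x ∈ P.erase a, v ⬝ᵥ φ x = 1 := by
    intro x hx
    show v ⬝ᵥ (((x - a) ⬝ᵥ v)⁻¹ • (x - a)) = 1
    rw [dotProduct_smul, smul_eq_mul, dotProduct_comm v, inv_mul_cancel₀ (hv' x hx)]
  have hφw : ∀ x ∈ P.erase a, ∀ w : Fin 3 → ℝ, w ⬝ᵥ φ x = 0 ↔ w ⬝ᵥ (x - a) = 0 := by
    intro x hx w
    show w ⬝ᵥ (((x - a) ⬝ᵥ v)⁻¹ • (x - a)) = 0 ↔ _
    rw [dotProduct_smul, smul_eq_mul]
    constructor
    · intro h
      exact (mul_eq_zero.mp h).resolve_left (inv_ne_zero (hv' x hx))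
    · intro h
      rw [h, mul_zero]
  have hQc : Q.card ≤ P.card := by
    refine Finset.card_image_le.trans (Finset.card_le_card (Finset.erase_subset _ _))
  -- φ x = φ x' implies the same line
  have hφline : ∀ x ∈ P.erase a, ∀ x' ∈ P.erase a, φ x = φ x' →
      P.filter (fun y => On a (x - a) y) = P.filter (fun y => On a (x' - a) y) := by
    have aux : ∀ x ∈ P.erase a, ∀ x' ∈ P.erase a, φ x = φ x' → ∀ y, On a (x - a) y →
        On a (x' - a) y := by
      intro x hx x' hx' h y ⟨s, hs⟩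
      have h1 : x - a = (((x - a) ⬝ᵥ v) * ((x' - a) ⬝ᵥ v)⁻¹) • (x' - a) := by
        have h2 : ((x - a) ⬝ᵥ v) • φ x = x - a := by
          show ((x - a) ⬝ᵥ v) • (((x - a) ⬝ᵥ v)⁻¹ • (x - a)) = x - a
          rw [smul_smul, mul_inv_cancel₀ (hv' x hx), one_smul]
        rw [h] at h2
        rw [mul_smul]
        exact h2.symm
      exact ⟨s * (((x - a) ⬝ᵥ v) * ((x' - a) ⬝ᵥ v)⁻¹), by rw [hs]; nth_rewrite 1 [h1]; rw [smul_smul]⟩
    intro x hx x' hx' h
    refine Finset.filter_congr fun y _ => ⟨aux x hx x' hx' h y, aux x' hx' x hx h.symm y⟩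
  set F := (Planes P).filter (fun B => a ∈ B ∧
      k ≤ ((Lines P).filter (fun A => a ∈ A ∧ A ⊆ B)).card) with hF
  -- description of the trace
  have htr : ∀ B ∈ F, ∀ (w : Fin 3 → ℝ) (δ : ℝ), B = P.filter (fun x => w ⬝ᵥ x = δ) →
      (B.erase a).image φ = Q.filter (fun y => w ⬝ᵥ y = 0) := by
    intro B hB w δ hBw
    have haB : a ∈ B := (Finset.mem_filter.mp hB).2.1
    have hδ : w ⬝ᵥ a = δ := by rw [hBw] at haB; exact (Finset.mem_filter.mp haB).2
    ext y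
    constructor
    · intro hy
      obtain ⟨x, hx, rfl⟩ := Finset.mem_image.mp hy
      obtain ⟨hxa, hxB⟩ := Finset.mem_erase.mp hx
      rw [hBw] at hxB
      obtain ⟨hxP, hxw⟩ := Finset.mem_filter.mp hxB
      have hxe : x ∈ P.erase a := Finset.mem_erase.mpr ⟨hxa, hxP⟩
      refine Finset.mem_filter.mpr ⟨Finset.mem_image_of_mem _ hxe, ?_⟩
      rw [hφw x hxe, dotProduct_sub, hxw, hδ, sub_self]
    · intro hy
      obtain ⟨hyQ, hyw⟩ := Finset.mem_filter.mp hy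
      obtain ⟨x, hx, rfl⟩ := Finset.mem_image.mp hyQ
      rw [hφw x hx, dotProduct_sub, hδ] at hyw
      refine Finset.mem_image_of_mem _ (Finset.mem_erase.mpr ⟨Finset.ne_of_mem_erase hx, ?_⟩)
      rw [hBw]
      exact Finset.mem_filter.mpr ⟨Finset.mem_of_mem_erase hx, by linarith⟩
  -- number of points of the trace
  have hcnt : ∀ B ∈ F, k ≤ ((B.erase a).image φ).card := by
    intro B hB
    obtain ⟨hBP, haB, hkB⟩ := Finset.mem_filter.mp hB
    refine hkB.trans ?_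
    have hch : ∀ A ∈ (Lines P).filter (fun A => a ∈ A ∧ A ⊆ B), ∃ x ∈ A, x ≠ a := by
      intro A hA
      obtain ⟨hAL, haA, hAB⟩ := Finset.mem_filter.mp hA
      have h2 := (Finset.mem_filter.mp hAL).2.1
      obtain ⟨x, hx, hxa⟩ := Finset.exists_mem_ne (show 1 < A.card by omega) a
      exact ⟨x, hx, hxa⟩
    choose! g hg1 hg2 using hch
    have hBsub : B ⊆ P := Finset.mem_powerset.mp (Finset.mem_filter.mp hBP).1
    refine Finset.card_le_card_of_injOn (fun A => φ (g A)) ?_ ?_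
    · intro A hA
      obtain ⟨hAL, haA, hAB⟩ := Finset.mem_filter.mp hA
      exact Finset.mem_coe.mpr (Finset.mem_image_of_mem _
        (Finset.mem_erase.mpr ⟨hg2 A hA, hAB (hg1 A hA)⟩))
    · intro A hA A' hA' h
      obtain ⟨hAL, haA, hAB⟩ := Finset.mem_filter.mp hA
      obtain ⟨hAL', haA', hAB'⟩ := Finset.mem_filter.mp hA'
      rw [line_eq hAL haA (hg1 A hA) (hg2 A hA), line_eq hAL' haA' (hg1 A' hA') (hg2 A' hA')]
      exact hφline _ (Finset.mem_erase.mpr ⟨hg2 A hA, hBsub (hAB (hg1 A hA))⟩) _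
        (Finset.mem_erase.mpr ⟨hg2 A' hA', hBsub (hAB' (hg1 A' hA'))⟩) h
  have hle : F.card ≤ ((Lines Q).filter (fun A => k ≤ A.card)).card := by
    refine Finset.card_le_card_of_injOn (fun B => (B.erase a).image φ) ?_ ?_
    · intro B hB
      have hB' : B ∈ F := hB
      obtain ⟨hBP, haB, hkB⟩ := Finset.mem_filter.mp hB'
      obtain ⟨hBsub, hBc, w, δ, hw, hBw⟩ := Finset.mem_filter.mp hBP
      have hc := hcnt B hB'
      have ht := htr B hB' w δ hBw
      refine Finset.mem_coe.mpr (Finset.mem_filter.mpr ⟨Finset.mem_filter.mpr ⟨?_, ?_, ?_⟩, hc⟩)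
      · rw [Finset.mem_powerset]
        show (B.erase a).image φ ⊆ Q
        rw [ht]
        exact Finset.filter_subset _ _
      · exact hk.trans hc
      · have h1 : 1 < ((B.erase a).image φ).card := by omega
        obtain ⟨y1, hy1, y2, hy2, hy12⟩ := Finset.one_lt_card.mp h1
        refine ⟨y1, y2 - y1, sub_ne_zero.mpr hy12.symm, ?_⟩
        have hvQ : ∀ y ∈ Q, v ⬝ᵥ y = 1 := by
          intro y hy
          obtain ⟨x, hx, rfl⟩ := Finset.mem_image.mp hy
          exact hφv x hx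
        rw [ht] at hy1 hy2
        obtain ⟨hy1Q, hy1w⟩ := Finset.mem_filter.mp hy1
        obtain ⟨hy2Q, hy2w⟩ := Finset.mem_filter.mp hy2
        show (B.erase a).image φ = _
        rw [ht]
        refine Finset.filter_congr fun y hy => ⟨fun hyw => ?_, fun hyo => ?_⟩
        · obtain ⟨t, ht'⟩ := perp_two w v y1 (y2 - y1) (y - y1) hw hy1w (hvQ y1 hy1Q)
            (by rw [dotProduct_sub, hy2w, hy1w, sub_self])
            (by rw [dotProduct_sub, hvQ y2 hy2Q, hvQ y1 hy1Q, sub_self])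
            (by rw [dotProduct_sub, hyw, hy1w, sub_self])
            (by rw [dotProduct_sub, hvQ y hy, hvQ y1 hy1Q, sub_self])
            (sub_ne_zero.mpr hy12.symm)
          exact ⟨t, by rw [← ht']; abel⟩
        · obtain ⟨t, ht'⟩ := hyo
          rw [ht', dotProduct_add, dotProduct_smul, dotProduct_sub, hy1w, hy2w]
          simp
    · intro B hB B' hB' h
      have hB1 : B ∈ F := hB
      have hB2 : B' ∈ F := hB'
      have haux : ∀ B ∈ F, ∀ B' ∈ F, (B.erase a).image φ = (B'.erase a).image φ → B ⊆ B' := by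
        intro B hB B' hB' h x hx
        obtain ⟨hBP, haB, -⟩ := Finset.mem_filter.mp hB
        obtain ⟨hBP', haB', -⟩ := Finset.mem_filter.mp hB'
        by_cases hxa : x = a
        · rw [hxa]; exact haB'
        obtain ⟨hBsub, -, -⟩ := Finset.mem_filter.mp hBP
        obtain ⟨-, -, w', δ', hw', hBw'⟩ := Finset.mem_filter.mp hBP'
        have hxP : x ∈ P := Finset.mem_powerset.mp hBsub hx
        have hxe : x ∈ P.erase a := Finset.mem_erase.mpr ⟨hxa, hxP⟩
        have h1 : φ x ∈ (B'.erase a).image φ := by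
          rw [← h]
          exact Finset.mem_image_of_mem _ (Finset.mem_erase.mpr ⟨hxa, hx⟩)
        rw [htr B' hB' w' δ' hBw'] at h1
        have h2 := (Finset.mem_filter.mp h1).2
        rw [hφw x hxe, dotProduct_sub] at h2
        have hδ' : w' ⬝ᵥ a = δ' := by rw [hBw'] at haB'; exact (Finset.mem_filter.mp haB').2
        rw [hBw']
        exact Finset.mem_filter.mpr ⟨hxP, by linarith⟩
      exact Finset.Subset.antisymm (haux B hB1 B' hB2 h) (haux B' hB2 B hB1 h.symm)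
  have h1 := hRL Q k hk
  have hkpos : (0 : ℝ) < k := by
    have : 0 < k := by omega
    exact_mod_cast this
  have hQ' : (Q.card : ℝ) ≤ P.card := by exact_mod_cast hQc
  calc (F.card : ℝ) ≤ ((Lines Q).filter (fun A => k ≤ A.card)).card := by exact_mod_cast hle
    _ ≤ C * ((Q.card : ℝ) ^ 2 / (k : ℝ) ^ 3 + (Q.card : ℝ) / k) := h1
    _ ≤ C * ((P.card : ℝ) ^ 2 / (k : ℝ) ^ 3 + (P.card : ℝ) / k) := by
      gcongr

end Pool.Agent.Helper55.Sim
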