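import Pool.Agent.Helper98.Sim.Defs

open scoped Classical BigOperators
open Finset

namespace Pool.Agent.Helper55.Sim

open Pool.Agent.Helper98.Sim

theorem exists_generic {d : ℕ} (U : Finset (Fin d → ℝ)) (h : ∀ u ∈ U, u ≠ 0) :
    ∃ v : Fin d → ℝ, ∀ u ∈ U, u ⬝ᵥ v ≠ 0 := by
  set P : (Fin d → ℝ) → MvPolynomial (Fin d) ℝ := fun u =>
    ∑ k, MvPolynomial.C (u k) * MvPolynomial.X k with hP
  have hev : ∀ u v, MvPolynomial.eval v (P u) = u ⬝ᵥ v := by
    intro u v
    rw [hP]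
    simp [dotProduct]
  have hne : ∀ u ∈ U, P u ≠ 0 := by
    intro u hu h0
    obtain ⟨k, hk⟩ := Function.ne_iff.mp (h u hu)
    have h1 := hev u (Pi.single k 1)
    rw [h0] at h1
    simp at h1
    exact hk h1.symm
  have hprod : ∏ u ∈ U, P u ≠ 0 := Finset.prod_ne_zero_iff.mpr hne
  have hex : ∃ v, MvPolynomial.eval v (∏ u ∈ U, P u) ≠ 0 := by
    by_contra hcon
    push Not at hcon
    exact hprod (MvPolynomial.funext fun v => by rw [hcon v, map_zero])
  obtain ⟨v, hv⟩ := hex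
  refine ⟨v, fun u hu => ?_⟩
  rw [map_prod] at hv
  have := Finset.prod_ne_zero_iff.mp hv u hu
  rwa [hev] at this

theorem st_HypCount (hS1 : Subst1_stmt) : ∀ d, HypCount_stmt d := by
  intro d F ι Λ w δ hF hw hz hd
  have hex : ∃ x0, MvPolynomial.eval x0 F ≠ 0 := by
    by_contra hcon
    push Not at hcon
    exact hF (MvPolynomial.funext fun v => by rw [hcon v, map_zero])
  obtain ⟨x0, hx0⟩ := hex
  have hoff : ∀ i ∈ Λ, δ i - w i ⬝ᵥ x0 ≠ 0 := by
    intro i hi h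
    exact hx0 (hz i hi x0 (by linarith))
  set u : ι × ι → Fin d → ℝ := fun z =>
    (δ z.1 - w z.1 ⬝ᵥ x0) • w z.2 - (δ z.2 - w z.2 ⬝ᵥ x0) • w z.1 with hu
  have hune : ∀ z ∈ Λ.offDiag, u z ≠ 0 := by
    intro z hzz h0
    obtain ⟨h1, h2, h3⟩ := Finset.mem_offDiag.mp hzz
    obtain ⟨x, hx1, hx2⟩ := hd z.1 h1 z.2 h2 h3
    have h4 : u z ⬝ᵥ (x - x0) = 0 := by rw [h0, zero_dotProduct]
    rw [hu] at h4
    simp only [sub_dotProduct, smul_dotProduct, dotProduct_sub, smul_eq_mul, hx1] at h4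
    have h5 : (δ z.1 - w z.1 ⬝ᵥ x0) * (w z.2 ⬝ᵥ x - δ z.2) = 0 := by linarith
    rcases mul_eq_zero.mp h5 with h6 | h6
    · exact hoff z.1 h1 h6
    · exact hx2 (sub_eq_zero.mp h6)
  obtain ⟨v, hv⟩ := exists_generic (Λ.image w ∪ Λ.offDiag.image u) (by
    intro y hy
    rcases Finset.mem_union.mp hy with h | h
    · obtain ⟨i, hi, rfl⟩ := Finset.mem_image.mp h
      exact hw i hi
    · obtain ⟨z, hz', rfl⟩ := Finset.mem_image.mp h
      exact hune z hz')
  have hv1 : ∀ i ∈ Λ, w i ⬝ᵥ v ≠ 0 := fun i hi =>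
    hv _ (Finset.mem_union_left _ (Finset.mem_image_of_mem _ hi))
  have hv2 : ∀ z ∈ Λ.offDiag, u z ⬝ᵥ v ≠ 0 := fun z hz' =>
    hv _ (Finset.mem_union_right _ (Finset.mem_image_of_mem _ hz'))
  obtain ⟨G, hG1, hG2⟩ := hS1 d F.totalDegree 1 F
      (fun k => Polynomial.C (x0 k) + Polynomial.X * Polynomial.C (v k)) 1 le_rfl (by
        intro k
        refine (Polynomial.natDegree_add_le _ _).trans (max_le ?_ ?_)
        · simp
        · refine (Polynomial.natDegree_mul_le).trans ?_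
          have := Polynomial.natDegree_X_le (R := ℝ)
          simp) (by simp)
  rw [one_mul] at hG1
  have hG3 : ∀ t : ℝ, G.eval t = MvPolynomial.eval (x0 + t • v) F := by
    intro t
    have h := hG2 t (by simp)
    rw [h]
    simp only [Polynomial.eval_one, one_pow, one_mul, Polynomial.eval_add, Polynomial.eval_C,
      Polynomial.eval_mul, Polynomial.eval_X, div_one]
    rfl
  have hG0 : G ≠ 0 := by
    intro h
    have h1 := hG3 0
    rw [h, Polynomial.eval_zero, zero_smul, add_zero] at h1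
    exact hx0 h1.symm
  have hcard : Λ.card ≤ G.roots.toFinset.card := by
    refine Finset.card_le_card_of_injOn (fun i => (δ i - w i ⬝ᵥ x0) / (w i ⬝ᵥ v)) ?_ ?_
    · intro i hi
      rw [Finset.mem_coe, Multiset.mem_toFinset, Polynomial.mem_roots hG0, Polynomial.IsRoot.def,
        hG3]
      refine hz i hi _ ?_
      rw [dotProduct_add, dotProduct_smul, smul_eq_mul, div_mul_cancel₀ _ (hv1 i hi)]
      ring
    · intro i hi j hj hij
      by_contra hne
      have h1 := hv2 (i, j) (Finset.mem_offDiag.mpr ⟨hi, hj, hne⟩)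
      apply h1
      have h2 : (δ i - w i ⬝ᵥ x0) * (w j ⬝ᵥ v) = (δ j - w j ⬝ᵥ x0) * (w i ⬝ᵥ v) := by
        have h3 : (δ i - w i ⬝ᵥ x0) / (w i ⬝ᵥ v) = (δ j - w j ⬝ᵥ x0) / (w j ⬝ᵥ v) := hij
        rw [div_eq_div_iff (hv1 i hi) (hv1 j hj)] at h3
        exact h3
      rw [hu]
      simp only [sub_dotProduct, smul_dotProduct, smul_eq_mul]
      linarith
  calc Λ.card ≤ G.roots.toFinset.card := hcard
    _ ≤ Multiset.card G.roots := Multiset.toFinset_card_le _
    _ ≤ G.natDegree := Polynomial.card_roots' _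
    _ ≤ F.totalDegree := hG1

end Pool.Agent.Helper55.Sim
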